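import Mathlib

set_option autoImplicit false

namespace Pool.Agent.Results.MP_1004d8_al.AffineFullCycle

/-- The affine group `x ↦ u x + a` of the prime field, as a type. -/
@[ext]
structure Aff (p : ℕ) where
  a : ZMod p
  u : (ZMod p)ˣ

namespace Aff

variable {p : ℕ}

instance : Mul (Aff p) := ⟨fun x y => ⟨x.a + x.u * y.a, x.u * y.u⟩⟩
instance : One (Aff p) := ⟨⟨0, 1⟩⟩
instance : Inv (Aff p) := ⟨fun x => ⟨-((x.u⁻¹ : (ZMod p)ˣ) * x.a), x.u⁻¹⟩⟩

@[simp] theorem mul_a (x y : Aff p) : (x * y).a = x.a + x.u * y.a := rfl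
@[simp] theorem mul_u (x y : Aff p) : (x * y).u = x.u * y.u := rfl
@[simp] theorem one_a : (1 : Aff p).a = 0 := rfl
@[simp] theorem one_u : (1 : Aff p).u = 1 := rfl
@[simp] theorem inv_a (x : Aff p) : (x⁻¹).a = -((x.u⁻¹ : (ZMod p)ˣ) * x.a) := rfl
@[simp] theorem inv_u (x : Aff p) : (x⁻¹).u = x.u⁻¹ := rfl

instance : Group (Aff p) where
  mul_assoc x y z := by
    ext
    · simp only [mul_a, mul_u, Units.val_mul]
      ring
    · simp [mul_assoc]
  one_mul x := by ext <;> simp
  mul_one x := by ext <;> simp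
  inv_mul_cancel x := by ext <;> simp

/-- Underlying product. -/
def equivProd (p : ℕ) : Aff p ≃ ZMod p × (ZMod p)ˣ where
  toFun x := (x.a, x.u)
  invFun x := ⟨x.1, x.2⟩

instance [NeZero p] : Finite (Aff p) := Finite.of_equiv _ (equivProd p).symm

theorem card_aff [hp : Fact p.Prime] : Nat.card (Aff p) = p * (p - 1) := by
  rw [Nat.card_congr (equivProd p), Nat.card_prod, Nat.card_zmod, Nat.card_eq_fintype_card,
    ZMod.card_units]

/-- The commuting pairs inject into a small set. -/
theorem card_comm_le [hp : Fact p.Prime] :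
    Nat.card {q : Aff p × Aff p // Commute q.1 q.2} ≤ p * p + p * ((p - 1) * (p - 1)) := by
  classical
  let F : {q : Aff p × Aff p // Commute q.1 q.2} →
      (ZMod p × ZMod p) ⊕ (ZMod p × ((ZMod p)ˣ × (ZMod p)ˣ)) := fun q =>
    if q.1.1.u = 1 then
      (if q.1.2.u = 1 then Sum.inl (q.1.1.a, q.1.2.a) else Sum.inr (q.1.2.a, (q.1.1.u, q.1.2.u)))
    else Sum.inr (q.1.1.a, (q.1.1.u, q.1.2.u))
  have hF : Function.Injective F := by
    rintro ⟨⟨x, y⟩, h⟩ ⟨⟨x', y'⟩, h'⟩ hxy
    have e := congrArg Aff.a h.eq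
    have e' := congrArg Aff.a h'.eq
    simp only [mul_a] at e e'
    simp only [F] at hxy
    have key : x.a = x'.a ∧ y.a = y'.a ∧ x.u = x'.u ∧ y.u = y'.u := by
      by_cases hx : x.u = 1
      · by_cases hy : y.u = 1
        · by_cases hx' : x'.u = 1
          · by_cases hy' : y'.u = 1
            · simp only [hx, hy, hx', hy', if_true, Sum.inl.injEq, Prod.mk.injEq] at hxy
              exact ⟨hxy.1, hxy.2, hx.trans hx'.symm, hy.trans hy'.symm⟩
            · simp [hx, hy, hx', hy'] at hxy
          · simp [hx, hy, hx'] at hxy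
        · by_cases hx' : x'.u = 1
          · by_cases hy' : y'.u = 1
            · simp [hx, hy, hx', hy'] at hxy
            · simp only [hx, hy, hx', hy', if_true, if_false, Sum.inr.injEq,
                Prod.mk.injEq] at hxy
              obtain ⟨h1, -, h2⟩ := hxy
              refine ⟨?_, h1, hx.trans hx'.symm, h2⟩
              have hy0 : (y.u : ZMod p) - 1 ≠ 0 := by
                intro h0
                exact hy (Units.ext (by simpa using sub_eq_zero.1 h0))
              rw [hx, Units.val_one] at e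
              rw [hx', Units.val_one, ← h1, ← h2] at e'
              have e1 : ((y.u : ZMod p) - 1) * x.a = 0 := by linear_combination -e
              have e2 : ((y.u : ZMod p) - 1) * x'.a = 0 := by linear_combination -e'
              rw [(mul_eq_zero.1 e1).resolve_left hy0, (mul_eq_zero.1 e2).resolve_left hy0]
          · simp only [hx, hy, hx', if_true, if_false, Sum.inr.injEq, Prod.mk.injEq] at hxy
            exact absurd hxy.2.1.symm hx'
      · by_cases hx' : x'.u = 1
        · by_cases hy' : y'.u = 1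
          · simp [hx, hx', hy'] at hxy
          · simp only [hx, hx', hy', if_true, if_false, Sum.inr.injEq, Prod.mk.injEq] at hxy
            exact hxy.2.1.elim
        · simp only [hx, hx', if_false, Sum.inr.injEq, Prod.mk.injEq] at hxy
          obtain ⟨h1, h2, h3⟩ := hxy
          refine ⟨h1, ?_, h2, h3⟩
          have hx0 : (x.u : ZMod p) - 1 ≠ 0 := by
            intro h0
            exact hx (Units.ext (by simpa using sub_eq_zero.1 h0))
          rw [← h1, ← h2, ← h3] at e'
          have e1 : ((x.u : ZMod p) - 1) * (y.a - y'.a) = 0 := by linear_combination e - e'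
          have := (mul_eq_zero.1 e1).resolve_left hx0
          exact sub_eq_zero.1 this
    obtain ⟨k1, k2, k3, k4⟩ := key
    apply Subtype.ext
    exact Prod.ext (Aff.ext k1 k3) (Aff.ext k2 k4)
  have := Nat.card_le_card_of_injective F hF
  rw [Nat.card_sum, Nat.card_prod, Nat.card_prod, Nat.card_prod, Nat.card_zmod,
    Nat.card_eq_fintype_card (α := (ZMod p)ˣ), ZMod.card_units] at this
  exact this

theorem commProb_le [hp : Fact p.Prime] : commProb (Aff p) ≤ 2 / (p - 1) := by
  rw [commProb_def, card_aff]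
  have h1 : (1 : ℚ) < p := by exact_mod_cast hp.out.one_lt
  have hc : ((Nat.card {q : Aff p × Aff p // Commute q.1 q.2} : ℕ) : ℚ) ≤
      p * p + p * ((p - 1) * (p - 1)) := by
    have := card_comm_le (p := p)
    have h2 : ((Nat.card {q : Aff p × Aff p // Commute q.1 q.2} : ℕ) : ℚ) ≤
      ((p * p + p * ((p - 1) * (p - 1)) : ℕ) : ℚ) := by exact_mod_cast this
    rw [Nat.cast_add, Nat.cast_mul, Nat.cast_mul, Nat.cast_mul,
      Nat.cast_sub hp.out.one_lt.le, Nat.cast_one] at h2
    exact h2
  rw [Nat.cast_mul, Nat.cast_sub hp.out.one_lt.le, Nat.cast_one]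
  have hp1 : (0 : ℚ) < p - 1 := by linarith
  have hp0 : (0 : ℚ) < p := by linarith
  rw [div_le_div_iff₀ (by positivity) hp1]
  have h2 : (2 : ℚ) ≤ p := by exact_mod_cast hp.out.two_le
  have h3 : (p : ℚ) * p + p * ((p - 1) * (p - 1)) ≤ 2 * (p * (p - 1)) * p := by
    have : 0 ≤ (p : ℚ) * (p * p - p - 1) := by
      apply mul_nonneg hp0.le
      nlinarith
    nlinarith
  calc _ ≤ ((p : ℚ) * p + p * ((p - 1) * (p - 1))) * (p - 1) :=
        mul_le_mul_of_nonneg_right hc hp1.le
    _ ≤ 2 * (p * (p - 1)) * p * (p - 1) := mul_le_mul_of_nonneg_right h3 hp1.le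
    _ = 2 * (p * (p - 1)) ^ 2 := by ring

/-- Translation by one. -/
def t (p : ℕ) : Aff p := ⟨1, 1⟩

theorem t_pow (n : ℕ) : (t p) ^ n = ⟨n, 1⟩ := by
  induction n with
  | zero => rw [pow_zero]; ext <;> simp
  | succ n ih =>
    rw [pow_succ, ih]
    ext <;> simp [t]

theorem mk_pow (v : (ZMod p)ˣ) (n : ℕ) : (⟨0, v⟩ : Aff p) ^ n = ⟨0, v ^ n⟩ := by
  induction n with
  | zero => rw [pow_zero]; ext <;> simp
  | succ n ih =>
    rw [pow_succ, ih]
    ext <;> simp [pow_succ]

end Aff

/-- For every `ε > 0` there is a finite group `G` with an affine map `A` of order exactly `|G|` and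
`cp(G) < ε`. -/
theorem result : ∀ ε : ℝ, 0 < ε →
    ∃ (G : Type) (_ : Group G) (_ : Finite G) (g : G) (α : MulAut G) (A : Equiv.Perm G),
      (∀ x : G, A x = g * α x) ∧ orderOf A = Nat.card G ∧ (commProb G : ℝ) < ε := by
  intro ε hε
  obtain ⟨N, hN⟩ := exists_nat_gt (2 / ε + 1)
  obtain ⟨p, hpN, hp⟩ := Nat.exists_infinite_primes N
  have : Fact p.Prime := ⟨hp⟩
  obtain ⟨v, hv⟩ := IsCyclic.exists_generator (α := (ZMod p)ˣ)
  have hvo : orderOf v = p - 1 := by
    rw [orderOf_eq_card_of_forall_mem_zpowers hv, Nat.card_eq_fintype_card, ZMod.card_units]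
  let h : Aff p := ⟨0, v⟩
  refine ⟨Aff p, inferInstance, inferInstance, Aff.t p * h, MulAut.conj h⁻¹,
    (Equiv.mulLeft (Aff.t p)).trans (Equiv.mulRight h), ?_, ?_, ?_⟩
  · intro x
    simp only [Equiv.trans_apply, Equiv.coe_mulLeft, Equiv.coe_mulRight, MulAut.conj_apply,
      inv_inv]
    group
  · have hpow : ∀ (n : ℕ) (x : Aff p),
        (((Equiv.mulLeft (Aff.t p)).trans (Equiv.mulRight h)) ^ n) x = Aff.t p ^ n * x * h ^ n := by
      intro n
      induction n with
      | zero => intro x; simp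
      | succ n ih =>
        intro x
        rw [pow_succ, Equiv.Perm.mul_apply, ih]
        simp only [Equiv.trans_apply, Equiv.coe_mulLeft, Equiv.coe_mulRight]
        rw [pow_succ, pow_succ']
        group
    apply Nat.dvd_antisymm
    · rw [orderOf_dvd_iff_pow_eq_one]
      ext1 x
      rw [hpow, Aff.card_aff, Aff.t_pow, Aff.mk_pow]
      have h1 : ((p * (p - 1) : ℕ) : ZMod p) = 0 := by simp
      have h2 : v ^ (p * (p - 1)) = 1 := by
        rw [mul_comm, pow_mul, ← hvo, pow_orderOf_eq_one, one_pow]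
      rw [h1, h2]
      ext <;> simp
    · have h1 := pow_orderOf_eq_one ((Equiv.mulLeft (Aff.t p)).trans (Equiv.mulRight h))
      have h2 := congrFun (congrArg DFunLike.coe h1) 1
      rw [hpow, Aff.t_pow, Aff.mk_pow] at h2
      have h3 := congrArg Aff.a h2
      have h4 := congrArg Aff.u h2
      simp at h3 h4
      rw [Aff.card_aff]
      apply Nat.Coprime.mul_dvd_of_dvd_of_dvd
      · rw [Nat.coprime_comm]
        apply Nat.Coprime.symm
        rw [Nat.Prime.coprime_iff_not_dvd hp]
        intro hd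
        have := Nat.le_of_dvd (by have := hp.one_lt; omega) hd
        have := hp.one_lt
        omega
      · rwa [ZMod.natCast_eq_zero_iff] at h3
      · rw [← hvo]
        exact orderOf_dvd_of_pow_eq_one h4
  · have h1 := Aff.commProb_le (p := p)
    have h2 : (commProb (Aff p) : ℝ) ≤ 2 / (p - 1) := by
      have : ((commProb (Aff p) : ℚ) : ℝ) ≤ ((2 / (p - 1) : ℚ) : ℝ) := by exact_mod_cast h1
      simpa using this
    refine lt_of_le_of_lt h2 ?_
    have hpN' : (N : ℝ) ≤ p := by exact_mod_cast hpN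
    have h3 : 2 / ε < (p : ℝ) - 1 := by linarith
    have h4 : 0 < (p : ℝ) - 1 := lt_trans (by positivity) h3
    rw [div_lt_iff₀ h4]
    rw [div_lt_iff₀ hε] at h3
    linarith

end Pool.Agent.Results.MP_1004d8_al.AffineFullCycle
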